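import Mathlib
import Pool.Agent.Helper669.Forcing

/-!
# Definitions: clubs, stationary sets, `FA⁺`, scattered orders, Baumgartner types
-/

set_option autoImplicit false

open Set Cardinal Pool.Agent.Helper669.Forcing

namespace Pool.Agent.R591.BT

/-- `ω₁` -/
abbrev W : Type := (ℵ₁ : Cardinal.{0}).ord.ToType

/-- `C` is closed and unbounded in `ω₁`. -/
def IsClub (C : Set W) : Prop :=
  (∀ ξ, ∃ γ ∈ C, ξ < γ) ∧
    ∀ γ, (∃ ξ, ξ < γ) → (∀ ξ < γ, ∃ η ∈ C, ξ < η ∧ η < γ) → γ ∈ C

/-- `T` is a stationary subset of `ω₁`. -/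
def Stationary (T : Set W) : Prop := ∀ C, IsClub C → (C ∩ T).Nonempty

section

variable {P : Type} [Preorder P]

/-- The named subset `C` of `ω₁` is closed and unbounded
(the translation of `IsClub` into the forcing language). -/
def FClub (C : W → Set P) : Set P :=
  fand (fall fun ξ => fex fun γ => fand (fground (ξ < γ)) (meets (C γ)))
    (fall fun γ => fall fun _ : ∃ ξ, ξ < γ =>
      fimp (fall fun ξ => fall fun _ : ξ < γ => fex fun η =>
          fand (fground (ξ < η ∧ η < γ)) (meets (C η)))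
        (meets (C γ)))

/-- The named subset `A` of `ω₁` is stationary
(the translation of `Stationary` into the forcing language). -/
def FStationary (A : W → Set P) : Set P :=
  fall fun C : W → Set P => fimp (FClub C) (fex fun ξ => fand (meets (C ξ)) (meets (A ξ)))

end

/-- `D` is a dense set of conditions. -/
def DenseSet {P : Type} [PartialOrder P] (D : Set P) : Prop := ∀ p, ∃ q ∈ D, q ≤ p

/-- `G` is a filter. -/
structure IsFilter {P : Type} [PartialOrder P] (G : Set P) : Prop where
  nonempty : G.Nonempty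
  up : ∀ p ∈ G, ∀ q, p ≤ q → q ∈ G
  directed : ∀ p ∈ G, ∀ q ∈ G, ∃ r ∈ G, r ≤ p ∧ r ≤ q

/-- `FA⁺` for a class of (nonempty) partial orders: for every `P` in the class, every family of
`ℵ₁` dense sets `D i`, and every name `A` for a subset of `ω₁` which is forced to be stationary,
some filter meets all `D i`, and the set of all `ξ` such that some `p` in the filter forces
`ξ ∈ A` is stationary. -/
def FAplus (𝔓 : (P : Type) → [PartialOrder P] → Prop) : Prop :=
  ∀ (P : Type) [PartialOrder P] [Nonempty P], 𝔓 P →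
    ∀ D : W → Set P, (∀ i, DenseSet (D i)) →
      ∀ A : W → Set P, (∀ p, p ∈ FStationary A) →
        ∃ G : Set P, IsFilter G ∧ (∀ i, (G ∩ D i).Nonempty) ∧
          Stationary {ξ | ∃ p ∈ G, p ∈ meets (A ξ)}

/-- `P` is `σ`-closed. -/
def SigmaClosed (P : Type) [PartialOrder P] : Prop :=
  ∀ p : ℕ → P, (∀ n, p (n + 1) ≤ p n) → ∃ q, ∀ n, q ≤ p n

/-- `P` is proper: there is a function `F` such that for every countable `M` closed under `F`,
every condition `p` in `M` has an extension `q` which is `M`-generic (for each dense set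
`D` in `M`, the set `D ∩ M` is predense below `q`). -/
def Proper (P : Type) [PartialOrder P] : Prop :=
  ∃ F : List (P ⊕ Set P) → P ⊕ Set P, ∀ M : Set (P ⊕ Set P), M.Countable →
    (∀ l : List (P ⊕ Set P), (∀ a ∈ l, a ∈ M) → F l ∈ M) →
      ∀ p : P, Sum.inl p ∈ M → ∃ q ≤ p, ∀ D : Set P, Sum.inr D ∈ M → DenseSet D →
        ∀ r ≤ q, ∃ d ∈ D, Sum.inl d ∈ M ∧ ∃ u : P, u ≤ r ∧ u ≤ d

/-- `L` contains no copy of the rationals. -/
def Scattered (L : Type) [LinearOrder L] : Prop := IsEmpty (ℚ ↪o L)

/-- `L` is the union of countably many scattered suborders. -/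
def SigmaScattered (L : Type) [LinearOrder L] : Prop :=
  ∃ A : ℕ → Set L, (⋃ n, A n) = Set.univ ∧ ∀ n, Scattered (A n)

/-- for each `α ∈ S`, `x α` is a strictly increasing sequence cofinal in `α` -/
def IsLadder (S : Set W) (x : W → ℕ → W) : Prop :=
  ∀ α ∈ S, StrictMono (x α) ∧ (∀ n, x α n < α) ∧ ∀ β < α, ∃ n, β < x α n

/-- The Baumgartner type `{x α : α ∈ S}`, with the lexicographic order. -/
abbrev BType (S : Set W) (x : W → ℕ → W) : Type :=
  {f : Lex (ℕ → W) // ∃ α ∈ S, f = toLex (x α)}

end Pool.Agent.R591.BT
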