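import Pool.Agent.R591.BT.Poset

/-!
# The main lemma: generic points
-/

set_option autoImplicit false

open Set Cardinal Pool.Agent.Helper669.Forcing

namespace Pool.Agent.R591.BT

variable {S : Set W} {Y Z : W → Set W}

/-- comparison of `Y η` and `Y δ`, where `Y δ` and `Y δ'` agree below `γ` and the next points
of `Y δ` are above `η` -/
theorem step_aux {X : W → Set W} (hX : Lad S X) {η δ δ' γ t : W} (hη : η ∈ S) (hηt : η ≤ t)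
    (hγη : γ < η) (hXγ : Ag X δ' δ γ) (hXe : ∀ x ∈ X δ, γ ≤ x → t < x) :
    (¬ Ag X η δ' γ → ((Lx X η δ ↔ Lx X η δ') ∧ (Lx X δ η ↔ Lx X δ' η))) ∧
    (Ag X η δ' γ → (Lx X η δ ∧ ¬ Lx X δ η)) := by
  constructor
  · intro hna
    have hna' : ¬ Ag X η δ γ := fun h => hna (h.trans hXγ.symm)
    -- points of difference are below `γ`
    have hlt : ∀ ξ, Ag X η δ ξ → ξ < γ := by
      intro ξ h
      by_contra hcon
      exact hna' (h.mono (not_lt.1 hcon))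
    have hlt' : ∀ ξ, Ag X η δ' ξ → ξ < γ := by
      intro ξ h
      by_contra hcon
      exact hna (h.mono (not_lt.1 hcon))
    refine ⟨⟨?_, ?_⟩, ⟨?_, ?_⟩⟩
    · rintro ⟨ξ, h1, h2, h3⟩
      have h4 := hlt ξ h3
      exact ⟨ξ, h1, fun h => h2 ((hXγ ξ h4).1 h), h3.trans (hXγ.symm.mono h4.le)⟩
    · rintro ⟨ξ, h1, h2, h3⟩
      have h4 := hlt' ξ h3
      exact ⟨ξ, h1, fun h => h2 ((hXγ ξ h4).2 h), h3.trans (hXγ.mono h4.le)⟩
    · rintro ⟨ξ, h1, h2, h3⟩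
      have h4 := hlt ξ h3.symm
      exact ⟨ξ, (hXγ ξ h4).2 h1, h2, (hXγ.mono h4.le).trans h3⟩
    · rintro ⟨ξ, h1, h2, h3⟩
      have h4 := hlt' ξ h3.symm
      exact ⟨ξ, (hXγ ξ h4).1 h1, h2, (hXγ.symm.mono h4.le).trans h3⟩
  · intro ha
    have ha' : Ag X η δ γ := ha.trans hXγ
    have hne : (X η ∩ Ici γ).Nonempty := by
      obtain ⟨x, hx, h⟩ := hX.cof _ hη γ hγη
      exact ⟨x, hx, h⟩
    set x := wellFounded_lt.min _ hne with hxdef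
    have hx : x ∈ X η ∩ Ici γ := wellFounded_lt.min_mem _ hne
    have hxm : ∀ y ∈ X η, γ ≤ y → x ≤ y := fun y hy hγy =>
      not_lt.1 (wellFounded_lt.not_lt_min _ (show y ∈ X η ∩ Ici γ from ⟨hy, hγy⟩))
    have hxη : x < η := hX.lt _ hη _ hx.1
    have hxδ : x ∉ X δ := fun h => absurd (hXe x h hx.2) (not_lt.2 (hxη.le.trans hηt))
    constructor
    · refine ⟨x, hx.1, hxδ, ?_⟩
      intro ζ hζ
      rcases lt_or_ge ζ γ with h | h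
      · exact ha' ζ h
      · refine iff_of_false (fun h' => absurd hζ (not_lt.2 (hxm ζ h' h))) (fun h' => ?_)
        exact absurd ((hζ.trans hxη).trans_le hηt) (not_lt.2 (hXe ζ h' h).le)
    · rintro ⟨ξ, h1, h2, h3⟩
      rcases lt_or_ge ξ γ with h | h
      · exact h2 ((ha' ξ h).2 h1)
      · have h4 : x < ξ := (hxη.trans_le hηt).trans (hXe ξ h1 h)
        exact hxδ ((h3 x h4).2 hx.1)

theorem step (hY : Lad S Y) (hZ : Lad S Z) {p q : Cd S Y Z} {δ γ δ' : W} (hg : Good p δ)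
    (hqp : q ≤ p) (h1 : p.t < γ) (h2 : γ < δ') (hδ' : δ' ∈ q.s) (hγ : γ ∈ q.c)
    (hs : ∀ η ∈ q.s, η ∈ p.s ∨ δ' ≤ η) (hc : ∀ η ∈ q.c, η ∈ p.c ∨ η = γ ∨ δ' ≤ η)
    (hYγ : Ag Y δ' δ γ) (hZγ : Ag Z δ' δ γ) (hqδ : q.t < δ)
    (hYe : ∀ x ∈ Y δ, γ ≤ x → q.t < x) (hZe : ∀ x ∈ Z δ, γ ≤ x → q.t < x) : Good q δ := by
  have hlev : ∀ η ∈ q.s, δ' ≤ η → ∀ γ₁ ∈ q.c, γ₁ ≤ γ → (Ag Y η δ' γ₁ ↔ Ag Z η δ' γ₁) :=
    fun η hη hle γ₁ hγ₁ hle' => q.lev η hη δ' hδ' γ₁ hγ₁ ((hle'.trans h2.le).trans hle)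
      (hle'.trans h2.le)
  have hηt : ∀ η ∈ q.s, η ≤ q.t := fun η hη => q.c_le _ (q.s_c _ hη)
  refine ⟨hg.mem, hqδ, ?_, ?_, ?_⟩
  · intro η hη
    rcases hs η hη with h | h
    · exact hg.g1 η h
    · have hγη : γ < η := h2.trans_le h
      have hηS := q.s_S _ hη
      obtain ⟨a1, a2⟩ := step_aux hY hηS (hηt η hη) hγη hYγ hYe
      obtain ⟨b1, b2⟩ := step_aux hZ hηS (hηt η hη) hγη hZγ hZe
      have hl := hlev η hη h γ hγ le_rfl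
      by_cases ha : Ag Y η δ' γ
      · have hb := hl.1 ha
        exact ⟨iff_of_true (a2 ha).1 (b2 hb).1, iff_of_false (a2 ha).2 (b2 hb).2⟩
      · have hb : ¬ Ag Z η δ' γ := fun h => ha (hl.2 h)
        rw [(a1 ha).1, (a1 ha).2, (b1 hb).1, (b1 hb).2]
        exact ⟨q.agree _ hη _ hδ', q.agree _ hδ' _ hη⟩
  · intro η hη γ₁ hγ₁ hle
    rcases hs η hη with h | h
    · have h3 : γ₁ ∈ p.c := (hqp.2.2 γ₁ (hle.trans (p.c_le _ (p.s_c _ h)))).1 hγ₁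
      exact hg.g2 η h γ₁ h3 hle
    · -- below `γ`
      have hbelow : ∀ γ₁ ∈ q.c, γ₁ ≤ γ → (Ag Y η δ γ₁ ↔ Ag Z η δ γ₁) := by
        intro γ₁ hγ₁ hle
        have e1 : Ag Y η δ γ₁ ↔ Ag Y η δ' γ₁ :=
          ⟨fun h => h.trans (hYγ.symm.mono hle), fun h => h.trans (hYγ.mono hle)⟩
        have e2 : Ag Z η δ γ₁ ↔ Ag Z η δ' γ₁ :=
          ⟨fun h => h.trans (hZγ.symm.mono hle), fun h => h.trans (hZγ.mono hle)⟩
        rw [e1, e2]
        exact hlev η hη h γ₁ hγ₁ hle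
      rcases le_or_gt γ₁ γ with h3 | h3
      · exact hbelow γ₁ hγ₁ h3
      · have key : ∀ X : W → Set W, (∀ x ∈ X δ, γ ≤ x → q.t < x) →
            (Ag X η δ γ₁ ↔ (Ag X η δ γ ∧ ¬ Mt X η γ γ₁)) := by
          intro X hXe
          have hγ₁t : γ₁ ≤ q.t := q.c_le _ hγ₁
          constructor
          · intro h4
            refine ⟨h4.mono h3.le, ?_⟩
            rintro ⟨ζ, hζ, h5, h6⟩
            exact absurd (hXe ζ ((h4 ζ h6).1 hζ) h5) (not_lt.2 (h6.le.trans hγ₁t))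
          · rintro ⟨h4, h5⟩ ζ hζ
            rcases lt_or_ge ζ γ with h6 | h6
            · exact h4 ζ h6
            · refine iff_of_false (fun h7 => h5 ⟨ζ, h7, h6, hζ⟩) (fun h7 => ?_)
              exact absurd (hXe ζ h7 h6) (not_lt.2 (hζ.le.trans hγ₁t))
        rw [key Y hYe, key Z hZe, hbelow γ hγ le_rfl, q.una η hη γ hγ γ₁ hγ₁ hle]
  · intro γ₁ hγ₁ γ₂ hγ₂
    have key : ∀ X : W → Set W, (∀ x ∈ X δ, γ ≤ x → q.t < x) → Ag X δ' δ γ →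
        (∀ γ₂ ≤ γ, (Mt X δ γ₁ γ₂ ↔ Mt X δ' γ₁ γ₂)) ∧
        (∀ γ₂ ∈ q.c, γ ≤ γ₂ → (Mt X δ γ₁ γ₂ ↔ Mt X δ γ₁ γ)) := by
      intro X hXe hXγ
      constructor
      · intro γ₂ hle
        constructor
        · rintro ⟨ζ, hζ, h3, h4⟩
          exact ⟨ζ, (hXγ ζ (h4.trans_le hle)).2 hζ, h3, h4⟩
        · rintro ⟨ζ, hζ, h3, h4⟩
          exact ⟨ζ, (hXγ ζ (h4.trans_le hle)).1 hζ, h3, h4⟩
      · intro γ₂ hγ₂ hle
        constructor
        · rintro ⟨ζ, hζ, h3, h4⟩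
          refine ⟨ζ, hζ, h3, ?_⟩
          by_contra hcon
          exact absurd (hXe ζ hζ (not_lt.1 hcon)) (not_lt.2 (h4.le.trans (q.c_le _ hγ₂)))
        · rintro ⟨ζ, hζ, h3, h4⟩
          exact ⟨ζ, hζ, h3, h4.trans_le hle⟩
    obtain ⟨a1, a2⟩ := key Y hYe hYγ
    obtain ⟨b1, b2⟩ := key Z hZe hZγ
    have hbelow : ∀ γ₂ ∈ q.c, γ₂ ≤ γ → (Mt Y δ γ₁ γ₂ ↔ Mt Z δ γ₁ γ₂) := by
      intro γ₂ hγ₂ hle
      rw [a1 γ₂ hle, b1 γ₂ hle]
      exact q.una δ' hδ' γ₁ hγ₁ γ₂ hγ₂ (hle.trans h2.le)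
    rcases le_or_gt γ₂ γ with h3 | h3
    · exact hbelow γ₂ hγ₂ h3
    · rw [a2 γ₂ hγ₂ h3.le, b2 γ₂ hγ₂ h3.le]
      exact hbelow γ hγ le_rfl

/-- the parameters of one step -/
abbrev K : Type := W × W × Finset W × Finset W

/-- the parameters are at most `ξ` -/
def KB (ξ : W) : Set K :=
  {τ | τ.1 ≤ ξ ∧ τ.2.1 ≤ ξ ∧ (∀ x ∈ τ.2.2.1, x ≤ ξ) ∧ ∀ x ∈ τ.2.2.2, x ≤ ξ}

theorem fin_countable (ξ : W) : {F : Finset W | ∀ x ∈ F, x ≤ ξ}.Countable := by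
  have := (W_Iic ξ).to_subtype
  have h : {F : Finset W | ∀ x ∈ F, x ≤ ξ} ⊆
      range (fun F : Finset (Iic ξ) => F.map (Function.Embedding.subtype _)) := by
    intro F hF
    refine ⟨F.subtype (· ∈ Iic ξ), ?_⟩
    show Finset.map _ _ = F
    rw [Finset.subtype_map]
    exact Finset.filter_true_of_mem hF
  exact (countable_range _).mono h

theorem KB_countable (ξ : W) : (KB ξ).Countable := by
  have h : KB ξ ⊆ Iic ξ ×ˢ (Iic ξ ×ˢ ({F : Finset W | ∀ x ∈ F, x ≤ ξ} ×ˢ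
      {F : Finset W | ∀ x ∈ F, x ≤ ξ})) := by
    rintro ⟨a, b, c, d⟩ ⟨h1, h2, h3, h4⟩
    exact ⟨h1, h2, h3, h4⟩
  exact ((W_Iic ξ).prod ((W_Iic ξ).prod ((fin_countable ξ).prod (fin_countable ξ)))).mono h

theorem KB_mono {ξ ξ' : W} (h : ξ ≤ ξ') {τ : K} (hτ : τ ∈ KB ξ) : τ ∈ KB ξ' :=
  ⟨hτ.1.trans h, hτ.2.1.trans h, fun x hx => (hτ.2.2.1 x hx).trans h,
    fun x hx => (hτ.2.2.2 x hx).trans h⟩

/-- a finite set of points below a closed point `ε` is bounded below `ε` -/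
theorem fin_bound {B : W → W} (hB : ∀ ξ, ξ < B ξ) {ε : W} (hε : Cl B ε) (F : Set W)
    (hF : F.Finite) (hF' : ∀ x ∈ F, x < ε) (m : W) (hm : m < ε) :
    ∃ γ, m < γ ∧ γ < ε ∧ ∀ x ∈ F, x < γ := by
  obtain ⟨M, hM, hmax⟩ := Set.exists_max_image (insert m F) id (hF.insert m) ⟨m, mem_insert _ _⟩
  have hMε : M < ε := by
    rcases hM with rfl | h
    · exact hm
    · exact hF' _ h
  exact ⟨B M, (hmax m (mem_insert _ _)).trans_lt (hB M), hε.2 M hMε,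
    fun x hx => (hmax x (mem_insert_of_mem _ hx)).trans_lt (hB M)⟩

theorem main (hY : Lad S Y) (hZ : Lad S Z)
    (hU : ∀ ζ, StatF {δ ∈ S | (∀ x ∈ Y δ, ζ ≤ x) ∧ ∀ x ∈ Z δ, ζ ≤ x})
    (p₀ : Cd S Y Z) (D : W → Set (Cd S Y Z)) (hD : ∀ ζ, ∀ p ≤ p₀, ∃ q ≤ p, q ∈ D ζ) :
    ∃ q ≤ p₀, q.t ∈ q.s ∧ (∃ ξ, ξ < q.t) ∧ ∀ ζ < q.t, ∃ r, q ≤ r ∧ r ∈ D ζ := by
  classical
  let R : Cd S Y Z → K → Cd S Y Z → Prop := fun p τ q => ∃ δ', τ.2.1 < δ' ∧ q ≤ p ∧ q ∈ D τ.1 ∧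
    p.t < τ.2.1 ∧ δ' ∈ q.s ∧ τ.2.1 ∈ q.c ∧ (∀ η ∈ q.s, η ∈ p.s ∨ δ' ≤ η) ∧
    (∀ η ∈ q.c, η ∈ p.c ∨ η = τ.2.1 ∨ δ' ≤ η) ∧ (∀ x < τ.2.1, (x ∈ Y δ' ↔ x ∈ τ.2.2.1)) ∧
    (∀ x < τ.2.1, (x ∈ Z δ' ↔ x ∈ τ.2.2.2))
  let Φ : List K → Cd S Y Z := fun l =>
    l.foldr (fun τ p => if h : ∃ q, R p τ q then h.choose else p) p₀
  have hΦ : ∀ τ l, (∃ q, R (Φ l) τ q) → R (Φ l) τ (Φ (τ :: l)) := by
    intro τ l h
    have : Φ (τ :: l) = h.choose := by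
      show (if h : ∃ q, R (Φ l) τ q then h.choose else Φ l) = _
      rw [dif_pos h]
    rw [this]
    exact h.choose_spec
  -- the bounding function
  have hcount : ∀ ξ, Countable {l : List K | ∀ τ ∈ l, τ ∈ KB ξ} := by
    intro ξ
    have := (KB_countable ξ).to_subtype
    rw [← Set.range_list_map_coe]
    exact (countable_range _).to_subtype
  obtain ⟨B, hB⟩ := bound_fun (ι := fun ξ => {l : List K | ∀ τ ∈ l, τ ∈ KB ξ})
    (fun ξ l => (Φ l.1).t)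
  choose e he1 he2 using fun ξ => exists_cl B ξ
  obtain ⟨ζ₀, hζ₀⟩ := W_bdd {p₀.t} (countable_singleton _)
  obtain ⟨δ, ⟨hδS, hδY, hδZ⟩, hδne, hδcl⟩ := hU ζ₀ e
  have hgood0 : Good p₀ δ := good_of_far hY hZ hδS
    (fun x hx => (hζ₀ _ rfl).trans_le (hδY x hx)) (fun x hx => (hζ₀ _ rfl).trans_le (hδZ x hx))
  -- the step
  let I : Cd S Y Z → Prop := fun p => p ≤ p₀ ∧ Good p δ ∧
    ∃ l ξ, ξ < δ ∧ (∀ τ ∈ l, τ ∈ KB ξ) ∧ p = Φ l
  have hstep : ∀ p, I p → ∀ ζ < δ, ∃ q, q ≤ p ∧ q ∈ D ζ ∧ I q := by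
    rintro p ⟨hp0, hg, l, ξ, hξ, hl, rfl⟩ ζ hζ
    obtain ⟨y, hy, hyt⟩ := hY.cof _ hδS _ hg.lt
    obtain ⟨z, hz, hzt⟩ := hZ.cof _ hδS _ hg.lt
    have hyδ := hY.lt _ hδS _ hy
    have hzδ := hZ.lt _ hδS _ hz
    set m : W := max (max ξ ζ) (max (Φ l).t (max y z)) with hm
    have hmδ : m < δ := max_lt (max_lt hξ hζ) (max_lt hg.lt (max_lt hyδ hzδ))
    have hξm : ξ ≤ m := (le_max_left _ _).trans (le_max_left _ _)
    have hζm : ζ ≤ m := (le_max_right _ _).trans (le_max_left _ _)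
    have htm : (Φ l).t ≤ m := (le_max_left _ _).trans (le_max_right _ _)
    have hym : y ≤ m := (le_max_left _ _).trans ((le_max_right _ _).trans (le_max_right _ _))
    have hzm : z ≤ m := (le_max_right _ _).trans ((le_max_right _ _).trans (le_max_right _ _))
    set ε := e m with hε
    have hmε : m < ε := he1 m
    have hεδ : ε < δ := hδcl m hmδ
    have hεcl : Cl B ε := he2 m
    have hfY := hY.fin _ hδS _ hεδ
    have hfZ := hZ.fin _ hδS _ hεδ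
    obtain ⟨γ, hmγ, hγε, hγF⟩ := fin_bound (fun ξ => (hB ξ).1) hεcl
      ((Y δ ∩ Iio ε) ∪ (Z δ ∩ Iio ε)) (hfY.union hfZ) (by
        rintro x (h | h)
        · exact h.2
        · exact h.2) m hmε
    let τ : K := (ζ, γ, hfY.toFinset, hfZ.toFinset)
    have hγδ : γ < δ := hγε.trans hεδ
    have htγ : (Φ l).t < γ := htm.trans_lt hmγ
    have hYτ : ∀ x < γ, (x ∈ Y δ ↔ x ∈ τ.2.2.1) := by
      intro x hx
      simp only [τ, Set.Finite.mem_toFinset, mem_inter_iff, mem_Iio]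
      exact ⟨fun h => ⟨h, hx.trans hγε⟩, fun h => h.1⟩
    have hZτ : ∀ x < γ, (x ∈ Z δ ↔ x ∈ τ.2.2.2) := by
      intro x hx
      simp only [τ, Set.Finite.mem_toFinset, mem_inter_iff, mem_Iio]
      exact ⟨fun h => ⟨h, hx.trans hγε⟩, fun h => h.1⟩
    have hYe : ∀ x ∈ Y δ, γ ≤ x → ε ≤ x := by
      intro x hx hγx
      by_contra hcon
      exact absurd (hγF x (Or.inl ⟨hx, not_le.1 hcon⟩)) (not_lt.2 hγx)
    have hZe : ∀ x ∈ Z δ, γ ≤ x → ε ≤ x := by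
      intro x hx hγx
      by_contra hcon
      exact absurd (hγF x (Or.inr ⟨hx, not_le.1 hcon⟩)) (not_lt.2 hγx)
    have hex : ∃ q, R (Φ l) τ q := by
      obtain ⟨r, hr, hrt, hrs, hrc⟩ := mid hY hZ hg htγ hγδ
        ⟨y, hy, hyt, hym.trans_lt hmγ⟩ ⟨z, hz, hzt, hzm.trans_lt hmγ⟩
      obtain ⟨q, hq, hqD⟩ := hD ζ r (hr.trans hp0)
      refine ⟨q, δ, hγδ, hq.trans hr, hqD, htγ, ?_, ?_, ?_, ?_, hYτ, hZτ⟩
      · refine s_sub hq ?_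
        rw [hrs]; exact mem_insert _ _
      · refine c_sub hq ?_
        rw [hrc]; exact mem_insert_of_mem _ (mem_insert _ _)
      · intro η hη
        rcases le_or_gt η δ with h | h
        · have h3 := (hq.2.1 η (by rw [hrt]; exact h)).1 hη
          rw [hrs] at h3
          rcases h3 with rfl | h3
          · exact Or.inr le_rfl
          · exact Or.inl h3
        · exact Or.inr h.le
      · intro η hη
        rcases le_or_gt η δ with h | h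
        · have h3 := (hq.2.2 η (by rw [hrt]; exact h)).1 hη
          rw [hrc] at h3
          rcases h3 with rfl | rfl | h3
          · exact Or.inr (Or.inr le_rfl)
          · exact Or.inr (Or.inl rfl)
          · exact Or.inl h3
        · exact Or.inr (Or.inr h.le)
    obtain ⟨δ', hγδ', hqp, hqD, _, hδ's, hγc, hs, hc, hY', hZ'⟩ := hΦ τ l hex
    -- the new bound
    have hξ' : max m γ < ε := max_lt hmε hγε
    have hall : ∀ τ' ∈ τ :: l, τ' ∈ KB (max m γ) := by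
      intro τ' hτ'
      rcases List.mem_cons.1 hτ' with rfl | h
      · refine ⟨hζm.trans (le_max_left _ _), le_max_right _ _, ?_, ?_⟩
        · intro x hx
          have hx' : x ∈ Y δ ∩ Iio ε := by
            simpa only [τ, Set.Finite.mem_toFinset] using hx
          exact (hγF x (Or.inl hx')).le.trans (le_max_right _ _)
        · intro x hx
          have hx' : x ∈ Z δ ∩ Iio ε := by
            simpa only [τ, Set.Finite.mem_toFinset] using hx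
          exact (hγF x (Or.inr hx')).le.trans (le_max_right _ _)
      · exact KB_mono (hξm.trans (le_max_left _ _)) (hl τ' h)
    have hqt : (Φ (τ :: l)).t < ε :=
      ((hB (max m γ)).2 ⟨τ :: l, hall⟩).trans (hεcl.2 _ hξ')
    refine ⟨Φ (τ :: l), hqp, hqD, hqp.trans hp0, ?_, τ :: l, max m γ, hξ'.trans hεδ, hall, rfl⟩
    exact step hY hZ hg hqp htγ hγδ' hδ's hγc hs hc
      (fun x hx => (hY' x hx).trans (hYτ x hx).symm) (fun x hx => (hZ' x hx).trans (hZτ x hx).symm)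
      (hqt.trans hεδ) (fun x hx h => hqt.trans_le (hYe x hx h))
      (fun x hx h => hqt.trans_le (hZe x hx h))
  -- the sequence
  have hI0 : I p₀ := by
    obtain ⟨ξ, hξ⟩ := hδne
    exact ⟨le_rfl, hgood0, [], ξ, hξ, by simp, rfl⟩
  obtain ⟨en, hen⟩ : ∃ en : ℕ → W, range en = Iio δ := by
    obtain ⟨ξ, hξ⟩ := hδne
    obtain ⟨f, hf⟩ := (W_Iio δ).exists_eq_range ⟨ξ, hξ⟩
    exact ⟨f, hf.symm⟩
  have henlt : ∀ n, en n < δ := fun n => by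
    have : en n ∈ range en := ⟨n, rfl⟩
    rw [hen] at this
    exact this
  choose! nx hnx using fun (p : Cd S Y Z) (ζ : W) (h : I p ∧ ζ < δ) => hstep p h.1 ζ h.2
  let seq : ℕ → Cd S Y Z := fun n => Nat.rec p₀ (fun n p => nx p (en n)) n
  have hseqI : ∀ n, I (seq n) := by
    intro n
    induction n with
    | zero => exact hI0
    | succ n ih => exact (hnx (seq n) (en n) ⟨ih, henlt n⟩).2.2
  have hseq : ∀ n, seq (n + 1) ≤ seq n ∧ seq (n + 1) ∈ D (en n) := fun n =>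
    ⟨(hnx (seq n) (en n) ⟨hseqI n, henlt n⟩).1, (hnx (seq n) (en n) ⟨hseqI n, henlt n⟩).2.1⟩
  obtain ⟨q, hq, hqt, hqs, _⟩ := lim hY hZ seq (fun n => (hseq n).1) δ {δ} (fun x hx => hx)
    (fun n => (hseqI n).2.1.lt) (fun _ n => (hseqI n).2.1)
  refine ⟨q, hq 0, ?_, ?_, ?_⟩
  · rw [hqt, hqs]; exact Or.inl rfl
  · rw [hqt]; exact hδne
  · rw [hqt]
    intro ζ hζ
    have : ζ ∈ range en := by rw [hen]; exact hζ
    obtain ⟨n, rfl⟩ := this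
    exact ⟨seq (n + 1), hq (n + 1), (hseq n).2⟩

/-- the generic subset of `S` -/
def gen (S : Set W) (Y Z : W → Set W) : W → Set (Cd S Y Z) := fun ξ => {p | ξ ∈ p.s}

theorem top_ext (hY : Lad S Y) (hZ : Lad S Z) (p : Cd S Y Z) (ζ : W) :
    ∃ q ≤ p, ζ < q.t := by
  obtain ⟨δ, hδ⟩ := W_bdd {p.t, ζ} (by simp)
  obtain ⟨q, hq, hqt, _⟩ := lim hY hZ (fun _ => p) (fun _ => le_rfl) δ ∅
    (fun x hx => absurd hx (notMem_empty _)) (fun _ => hδ _ (by simp))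
    (fun h => absurd h (notMem_empty _))
  exact ⟨q, hq 0, by rw [hqt]; exact hδ _ (by simp)⟩

theorem gen_stationary (hY : Lad S Y) (hZ : Lad S Z)
    (hU : ∀ ζ, StatF {δ ∈ S | (∀ x ∈ Y δ, ζ ≤ x) ∧ ∀ x ∈ Z δ, ζ ≤ x}) (p : Cd S Y Z) :
    p ∈ FStationary (gen S Y Z) := by
  intro C
  rw [mem_fimp]
  intro p₀ _ hC
  have hD : ∀ ζ, ∀ p ≤ p₀, ∃ q ≤ p, q ∈ {q : Cd S Y Z | ∃ ξ, ζ < ξ ∧ ξ < q.t ∧ q ∈ meets (C ξ)} := by
    intro ζ p hp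
    obtain ⟨q, hq, ξ, hξ, hqξ⟩ := mem_fex.1 (hC.1 ζ) p hp
    obtain ⟨r, hr, hrt⟩ := top_ext hY hZ q ξ
    exact ⟨r, hr.trans hq, ξ, hξ, hrt, down_meets _ _ hqξ _ hr⟩
  obtain ⟨q, hq, hqs, hqne, hqD⟩ := main hY hZ hU p₀ _ hD
  have h2 := hC.2 q.t hqne
  obtain ⟨u, hu, huC⟩ := mem_fimp.1 h2 q hq (by
    intro ξ hξ
    obtain ⟨r, hr, η, h3, h4, h5⟩ := hqD ξ hξ
    refine mem_fex_of_mem η (down_fand (down_fground _) (down_meets _)) ?_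
    exact ⟨⟨h3, h4.trans_le hr.1⟩, down_meets _ _ h5 _ hr⟩)
  refine ⟨u, hu.trans hq, mem_fex_of_mem q.t (down_fand (down_meets _) (down_meets _)) ?_⟩
  exact ⟨huC, meets_of_le hqs hu⟩

theorem filter_agree {G : Set (Cd S Y Z)} (hG : IsFilter G) {ξ ξ' : W}
    (h : ∃ p ∈ G, p ∈ meets (gen S Y Z ξ)) (h' : ∃ p ∈ G, p ∈ meets (gen S Y Z ξ')) :
    ξ ∈ S ∧ (Lx Y ξ ξ' ↔ Lx Z ξ ξ') := by
  obtain ⟨p, hp, h⟩ := h
  obtain ⟨p', hp', h'⟩ := h'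
  obtain ⟨u, _, hu, hu'⟩ := hG.directed p hp p' hp'
  obtain ⟨r, hr, s, hs, hrs⟩ := h u hu
  obtain ⟨r', hr', s', hs', hrs'⟩ := h' r (hr.trans hu')
  have h1 : ξ ∈ r'.s := s_sub (hr'.trans hrs) hs
  have h2 : ξ' ∈ r'.s := s_sub hrs' hs'
  exact ⟨r'.s_S _ h1, r'.agree _ h1 _ h2⟩

end Pool.Agent.R591.BT
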