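import Pool.Agent.R591.BT.Main

/-!
# Ladders, and stationary sets give orders which are not `σ`-scattered
-/

set_option autoImplicit false

open Set Cardinal

namespace Pool.Agent.R591.BT

/-! ### a criterion for containing the rationals -/

section rat

variable {L : Type} [LinearOrder L]

/-- type synonym -/
def Syn (A : Set L) : Type := A

theorem exists_rat_embedding (Pos : Set L → Prop)
    (mono : ∀ A B, A ⊆ B → Pos A → Pos B) (union : ∀ A B, Pos (A ∪ B) → Pos A ∨ Pos B)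
    (split : ∀ A, Pos A → ∃ A₀ A₁, A₀ ⊆ A ∧ A₁ ⊆ A ∧ Pos A₀ ∧ Pos A₁ ∧ ∀ a ∈ A₀, ∀ b ∈ A₁, a < b)
    (ne : ∀ A, Pos A → A.Nonempty) (A : Set L) (hA : Pos A) : Nonempty (ℚ ↪o A) := by
  classical
  -- three pieces
  have split3 : ∀ A, Pos A → ∃ A₀ A₁ A₂, A₀ ⊆ A ∧ A₁ ⊆ A ∧ A₂ ⊆ A ∧ Pos A₀ ∧ Pos A₁ ∧ Pos A₂ ∧
      (∀ a ∈ A₀, ∀ b ∈ A₁, a < b) ∧ (∀ a ∈ A₁, ∀ b ∈ A₂, a < b) := by
    intro A hA
    obtain ⟨A₀, A₁, h1, h2, h3, h4, h5⟩ := split A hA
    obtain ⟨A₂, A₃, h6, h7, h8, h9, h10⟩ := split A₁ h4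
    exact ⟨A₀, A₂, A₃, h1, h6.trans h2, h7.trans h2, h3, h8, h9, fun a ha b hb => h5 a ha b (h6 hb),
      h10⟩
  -- intervals
  let J : A → A → Set L := fun a b => {d | d ∈ A ∧ a.1 ≤ d ∧ d ≤ b.1}
  have hJlt : ∀ a b : A, Pos (J a b) → a.1 < b.1 := by
    intro a b h
    obtain ⟨A₀, A₁, h1, h2, h3, h4, h5⟩ := split _ h
    obtain ⟨x, hx⟩ := ne _ h3
    obtain ⟨y, hy⟩ := ne _ h4
    exact (h1 hx).2.1.trans_lt ((h5 x hx y hy).trans_le (h2 hy).2.2)
  let le' : A → A → Prop := fun a b => ¬ Pos (J b a)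
  let pre : Preorder (Syn A) :=
    { le := fun a b => le' a b
      le_refl := fun a h => lt_irrefl _ (hJlt a a h)
      le_trans := by
        intro a b c hab hbc h
        have hlt := hJlt _ _ h
        rcases lt_or_ge b.1 c.1 with h1 | h1
        · exact hab (mono _ _ (fun d hd => ⟨hd.1, h1.le.trans hd.2.1, hd.2.2⟩) h)
        · rcases lt_or_ge a.1 b.1 with h2 | h2
          · exact hbc (mono _ _ (fun d hd => ⟨hd.1, hd.2.1, hd.2.2.trans h2.le⟩) h)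
          · have h3 : Pos (J c b ∪ J b a) := by
              refine mono _ _ (fun d hd => ?_) h
              rcases le_total d b.1 with h4 | h4
              · exact Or.inl ⟨hd.1, hd.2.1, h4⟩
              · exact Or.inr ⟨hd.1, h4, hd.2.2⟩
            rcases union _ _ h3 with h4 | h4
            · exact hbc h4
            · exact hab h4 }
  have htot : ∀ a b : Syn A, a ≤ b ∨ b ≤ a := by
    intro a b
    by_cases h : Pos (J b a)
    · right
      intro h2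
      exact lt_asymm (hJlt _ _ h) (hJlt _ _ h2)
    · exact Or.inl h
  have : @Std.Total (Syn A) (· ≤ ·) := ⟨htot⟩
  have hlt_iff : ∀ a b : Syn A, a < b ↔ Pos (J a b) := by
    intro a b
    constructor
    · intro h
      by_contra hcon
      exact h.not_ge hcon
    · intro h
      refine lt_of_le_not_ge ?_ (fun h2 => h2 h)
      intro h2
      exact lt_asymm (hJlt _ _ h) (hJlt _ _ h2)
  let Q := Antisymmetrization (Syn A) (· ≤ ·)
  have hden : DenselyOrdered Q := by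
    constructor
    intro x y
    refine Quotient.inductionOn₂ x y ?_
    intro a b hab
    have hab' : a < b := hab
    obtain ⟨A₀, A₁, A₂, h0, h1, h2, p0, p1, p2, q1, q2⟩ := split3 _ ((hlt_iff a b).1 hab')
    obtain ⟨c, hc⟩ := ne _ p1
    have hcA : c ∈ A := (h1 hc).1
    let c' : Syn A := (⟨c, hcA⟩ : A)
    refine ⟨toAntisymmetrization (· ≤ ·) c', ?_, ?_⟩
    · show a < c'
      rw [hlt_iff]
      refine mono _ _ (fun d hd => ?_) p0
      exact ⟨(h0 hd).1, (h0 hd).2.1, (q1 d hd c hc).le⟩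
    · show c' < b
      rw [hlt_iff]
      refine mono _ _ (fun d hd => ?_) p2
      exact ⟨(h2 hd).1, (q2 c hc d hd).le, (h2 hd).2.2⟩
  have hnt : Nontrivial Q := by
    obtain ⟨A₀, A₁, A₂, h0, h1, h2, p0, p1, p2, q1, q2⟩ := split3 _ hA
    obtain ⟨a, ha⟩ := ne _ p0
    obtain ⟨b, hb⟩ := ne _ p2
    let a' : Syn A := (⟨a, h0 ha⟩ : A)
    let b' : Syn A := (⟨b, h2 hb⟩ : A)
    have hab : a' < b' := by
      rw [hlt_iff]
      refine mono _ _ (fun d hd => ?_) p1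
      exact ⟨h1 hd, (q1 a ha d hd).le, (q2 d hd b hb).le⟩
    have : toAntisymmetrization (· ≤ ·) a' < toAntisymmetrization (· ≤ ·) b' := hab
    exact ⟨_, _, this.ne⟩
  obtain ⟨f⟩ := Order.embedding_from_countable_to_dense ℚ Q
  let g : ℚ → Syn A := fun q => ofAntisymmetrization (· ≤ ·) (f q)
  refine ⟨OrderEmbedding.ofStrictMono (β := A) g ?_⟩
  intro q q' hqq
  have h1 : f q < f q' := f.lt_iff_lt.2 hqq
  have h2 : g q < g q' := ofAntisymmetrization_lt_ofAntisymmetrization_iff.2 h1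
  exact hJlt _ _ ((hlt_iff _ _).1 h2)

end rat

/-! ### ladders -/

section ladder

variable {S : Set W} {x : W → ℕ → W}

theorem IsLadder.mono {S' : Set W} (h : IsLadder S x) (hS : S' ⊆ S) : IsLadder S' x :=
  fun α hα => h α (hS hα)

/-- the sets of values of a ladder -/
def rg (x : W → ℕ → W) : W → Set W := fun α => range (x α)

theorem lad_rg (h : IsLadder S x) : Lad S (rg x) where
  lt := by
    rintro δ hδ _ ⟨n, rfl⟩
    exact (h δ hδ).2.1 n
  fin := by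
    intro δ hδ ζ hζ
    obtain ⟨n, hn⟩ := (h δ hδ).2.2 ζ hζ
    refine ((Set.finite_Iio n).image (x δ)).subset ?_
    rintro _ ⟨⟨m, rfl⟩, hm⟩
    exact ⟨m, (h δ hδ).1.lt_iff_lt.1 (lt_trans hm hn), rfl⟩
  cof := by
    intro δ hδ ζ hζ
    obtain ⟨n, hn⟩ := (h δ hδ).2.2 ζ hζ
    exact ⟨x δ n, ⟨n, rfl⟩, hn.le⟩
  ne := fun δ hδ => ⟨x δ 0, (h δ hδ).2.1 0⟩

theorem lex_iff {f g : ℕ → W} : toLex f < toLex g ↔ ∃ n, (∀ i < n, f i = g i) ∧ f n < g n :=
  Iff.rfl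

theorem lx_iff (h : IsLadder S x) {η η' : W} (hη : η ∈ S) (hη' : η' ∈ S) :
    Lx (rg x) η η' ↔ toLex (x η) < toLex (x η') := by
  have m1 := (h η hη).1
  have m2 := (h η' hη').1
  rw [lex_iff]
  constructor
  · rintro ⟨_, ⟨n, rfl⟩, h2, h3⟩
    have heq : ∀ i, i < n → x η i = x η' i := by
      intro i
      induction i using Nat.strong_induction_on with
      | _ i ih =>
        intro hi
        have ih' : ∀ j < i, x η j = x η' j := fun j hj => ih j hj (hj.trans hi)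
        have h4 : x η i < x η n := m1 hi
        obtain ⟨k, hk⟩ := (h3 _ h4).1 ⟨i, rfl⟩
        have hik : i ≤ k := by
          by_contra hcon
          push Not at hcon
          rw [← ih' k hcon] at hk
          exact absurd (m1.injective hk) hcon.ne
        have h5 : x η' i ≤ x η i := by rw [← hk]; exact m2.monotone hik
        obtain ⟨l, hl⟩ := (h3 _ (h5.trans_lt h4)).2 ⟨i, rfl⟩
        have hil : i ≤ l := by
          by_contra hcon
          push Not at hcon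
          rw [ih' l hcon] at hl
          exact absurd (m2.injective hl) hcon.ne
        have h6 : x η i ≤ x η' i := by rw [← hl]; exact m1.monotone hil
        exact le_antisymm h6 h5
    refine ⟨n, heq, ?_⟩
    by_contra hcon
    push Not at hcon
    rcases hcon.lt_or_eq with h4 | h4
    · obtain ⟨m, hm⟩ := (h3 _ h4).2 ⟨n, rfl⟩
      have hmn : m < n := m1.lt_iff_lt.1 (by rw [hm]; exact h4)
      rw [heq m hmn] at hm
      exact absurd (m2.injective hm) hmn.ne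
    · exact h2 ⟨n, h4⟩
  · rintro ⟨n, heq, hlt⟩
    refine ⟨x η n, ⟨n, rfl⟩, ?_, ?_⟩
    · rintro ⟨k, hk⟩
      have hkn : k < n := m2.lt_iff_lt.1 (by rw [hk]; exact hlt)
      rw [← heq k hkn] at hk
      exact absurd (m1.injective hk) hkn.ne
    · intro ζ hζ
      constructor
      · rintro ⟨i, rfl⟩
        have hi : i < n := m1.lt_iff_lt.1 hζ
        exact ⟨i, (heq i hi).symm⟩
      · rintro ⟨i, rfl⟩
        have hi : i < n := m2.lt_iff_lt.1 (hζ.trans hlt)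
        exact ⟨i, heq i hi⟩

theorem ladder_inj (h : IsLadder S x) {η η' : W} (hη : η ∈ S) (hη' : η' ∈ S)
    (he : x η = x η') : η = η' := by
  rcases lt_trichotomy η η' with h1 | h1 | h1
  · obtain ⟨n, hn⟩ := (h η' hη').2.2 η h1
    rw [← he] at hn
    exact absurd hn (not_lt.2 ((h η hη).2.1 n).le)
  · exact h1
  · obtain ⟨n, hn⟩ := (h η hη).2.2 η' h1
    rw [he] at hn
    exact absurd hn (not_lt.2 ((h η' hη').2.1 n).le)

/-- splitting stationary sets -/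
theorem split_stat (h : IsLadder S x) {T : Set W} (hT : T ⊆ S) (hs : StatF T) :
    ∃ T₀ T₁, T₀ ⊆ T ∧ T₁ ⊆ T ∧ StatF T₀ ∧ StatF T₁ ∧
      ∀ a ∈ T₀, ∀ b ∈ T₁, toLex (x a) < toLex (x b) := by
  by_contra hcon
  have key : ∀ n, ∃ a, ¬ StatF {α ∈ T | x α n ≠ a} := by
    intro n
    induction n using Nat.strong_induction_on with
    | _ n ih =>
      choose! a ha using ih
      -- the set of points following `a` below `n`
      let T' : Set W := {α ∈ T | ∀ i < n, x α i = a i}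
      have hT' : ∀ U ⊆ T, StatF U → StatF (U ∩ T') := by
        intro U hU hUs
        by_contra h1
        have h2 : StatF (U ∩ T' ∪ ⋃ i : ℕ, {α ∈ T | i < n ∧ x α i ≠ a i}) := by
          refine hUs.mono ?_
          intro α hα
          by_cases h3 : α ∈ T'
          · exact Or.inl ⟨hα, h3⟩
          · right
            simp only [T', mem_ofPred_eq, not_and, not_forall] at h3
            obtain ⟨i, hi, h4⟩ := h3 (hU hα)
            exact mem_iUnion.2 ⟨i, hU hα, hi, h4⟩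
        rcases h2.union with h3 | h3
        · exact h1 h3
        · obtain ⟨i, hi⟩ := h3.iUnion
          obtain ⟨α, hα⟩ := hi.nonempty
          exact ha i hα.2.1 (hi.mono (fun β hβ => ⟨hβ.1, hβ.2.2⟩))
      obtain ⟨b, hb⟩ := (hT' T subset_rfl hs).fodor (fun α => x α n)
        (fun α hα => (h α (hT hα.1)).2.1 n)
      refine ⟨b, fun h1 => hcon ?_⟩
      obtain ⟨c, hc⟩ := (hT' _ (fun α hα => hα.1) h1).fodor (fun α => x α n)
        (fun α hα => (h α (hT hα.1.1)).2.1 n)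
      have hbc : b ≠ c := by
        obtain ⟨α, hα⟩ := hc.nonempty
        rintro rfl
        exact hα.1.1.2 hα.2
      have hU : ∀ α, α ∈ {α ∈ T ∩ T' | x α n = b} → α ∈ T ∧ (∀ i < n, x α i = a i) ∧ x α n = b :=
        fun α hα => ⟨hα.1.1, hα.1.2.2, hα.2⟩
      have hV : ∀ α, α ∈ {α ∈ {α ∈ T | x α n ≠ b} ∩ T' | x α n = c} →
          α ∈ T ∧ (∀ i < n, x α i = a i) ∧ x α n = c :=
        fun α hα => ⟨hα.1.1.1, hα.1.2.2, hα.2⟩
      rcases lt_or_gt_of_ne hbc with h2 | h2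
      · refine ⟨_, _, fun α hα => (hU α hα).1, fun α hα => (hV α hα).1, hb, hc, ?_⟩
        intro α hα β hβ
        obtain ⟨_, a1, a2⟩ := hU α hα
        obtain ⟨_, b1, b2⟩ := hV β hβ
        refine lex_iff.2 ⟨n, fun i hi => (a1 i hi).trans (b1 i hi).symm, ?_⟩
        rw [a2, b2]; exact h2
      · refine ⟨_, _, fun α hα => (hV α hα).1, fun α hα => (hU α hα).1, hc, hb, ?_⟩
        intro α hα β hβ
        obtain ⟨_, a1, a2⟩ := hV α hα
        obtain ⟨_, b1, b2⟩ := hU β hβ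
        refine lex_iff.2 ⟨n, fun i hi => (a1 i hi).trans (b1 i hi).symm, ?_⟩
        rw [a2, b2]; exact h2
  choose a ha using key
  obtain ⟨ξ, hξ⟩ := W_bdd (range a) (countable_range _)
  have h1 : StatF ((⋃ n, {α ∈ T | x α n ≠ a n}) ∪ {α ∈ T | ξ < α ∧ ∀ n, x α n = a n}) := by
    refine (hs.gt ξ).mono ?_
    rintro α ⟨hα, hξα⟩
    by_cases h2 : ∀ n, x α n = a n
    · exact Or.inr ⟨hα, hξα, h2⟩
    · push Not at h2
      obtain ⟨n, hn⟩ := h2
      exact Or.inl (mem_iUnion.2 ⟨n, hα, hn⟩)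
  rcases h1.union with h2 | h2
  · obtain ⟨n, hn⟩ := h2.iUnion
    exact ha n hn
  · obtain ⟨α, hα, hξα, h3⟩ := h2.nonempty
    obtain ⟨n, hn⟩ := (h α (hT hα)).2.2 ξ hξα
    rw [h3 n] at hn
    exact absurd (hξ _ ⟨n, rfl⟩) (not_lt.2 hn.le)

/-- A stationary set of points, ordered by a ladder, is not `σ`-scattered. -/
theorem not_sigmaScattered (h : IsLadder S x) (hS : StatF S) (L : Type) [LinearOrder L]
    (φ : L → W) (hφS : ∀ a, φ a ∈ S) (hφ : ∀ α ∈ S, ∃ a, φ a = α)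
    (hlt : ∀ a b, a < b ↔ toLex (x (φ a)) < toLex (x (φ b))) : ¬ SigmaScattered L := by
  rintro ⟨A, hA, hsc⟩
  have h1 : StatF (⋃ n, φ '' (A n)) := by
    refine hS.mono ?_
    intro α hα
    obtain ⟨a, rfl⟩ := hφ α hα
    have : a ∈ ⋃ n, A n := by rw [hA]; exact mem_univ _
    obtain ⟨n, hn⟩ := mem_iUnion.1 this
    exact mem_iUnion.2 ⟨n, a, hn, rfl⟩
  obtain ⟨n, hn⟩ := h1.iUnion
  obtain ⟨f⟩ := exists_rat_embedding (fun B : Set L => StatF (φ '' B))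
    (fun B C hBC hB => hB.mono (image_mono hBC))
    (fun B C hBC => by
      rw [image_union] at hBC
      exact hBC.union)
    (fun B hB => by
      obtain ⟨T₀, T₁, h0, h1, s0, s1, hlt'⟩ := split_stat (T := φ '' B) h (by
        rintro _ ⟨a, _, rfl⟩; exact hφS a) hB
      refine ⟨{a ∈ B | φ a ∈ T₀}, {a ∈ B | φ a ∈ T₁}, fun a ha => ha.1, fun a ha => ha.1, ?_, ?_, ?_⟩
      · refine s0.mono ?_
        intro α hα
        obtain ⟨a, ha, rfl⟩ := h0 hα
        exact ⟨a, ⟨ha, hα⟩, rfl⟩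
      · refine s1.mono ?_
        intro α hα
        obtain ⟨a, ha, rfl⟩ := h1 hα
        exact ⟨a, ⟨ha, hα⟩, rfl⟩
      · intro a ha b hb
        exact (hlt a b).2 (hlt' _ ha.2 _ hb.2))
    (fun B hB => by
      obtain ⟨_, a, ha, _⟩ := hB.nonempty
      exact ⟨a, ha⟩)
    (A n) hn
  exact (hsc n).false f

end ladder

/-! ### a type which occurs unboundedly -/

theorem step1 {S : Set W} {X X' : W → Set W} (hX : Lad S X) (hX' : Lad S X') (hS : StatF S) :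
    ∃ A A' : Finset W, ∀ ζ, StatF {δ ∈ S | (∀ x < ζ, (x ∈ X δ ↔ x ∈ A)) ∧
      ∀ x < ζ, (x ∈ X' δ ↔ x ∈ A')} := by
  by_contra hcon
  push Not at hcon
  choose ζ hζ using hcon
  simp only [StatF, not_exists, not_forall, not_and] at hζ
  choose B hB using hζ
  have hc : ∀ ξ : W, Countable (({F : Finset W | ∀ x ∈ F, x ≤ ξ} ×ˢ
      ({F : Finset W | ∀ x ∈ F, x ≤ ξ} ×ˢ Iic ξ) : Set (Finset W × Finset W × W))) := by
    intro ξ
    exact ((fin_countable ξ).prod ((fin_countable ξ).prod (W_Iic ξ))).to_subtype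
  obtain ⟨G, hG⟩ := bound_fun (ι := fun ξ => ({F : Finset W | ∀ x ∈ F, x ≤ ξ} ×ˢ
      ({F : Finset W | ∀ x ∈ F, x ≤ ξ} ×ˢ Iic ξ) : Set (Finset W × Finset W × W)))
    (fun ξ z => max (ζ z.1.1 z.1.2.1) (B z.1.1 z.1.2.1 z.1.2.2))
  obtain ⟨ε, _, hε⟩ := exists_cl G o
  obtain ⟨δ, ⟨hδS, hεδ⟩, hδ⟩ := (hS.gt ε) G
  have hfX := hX.fin _ hδS _ hεδ
  have hfX' := hX'.fin _ hδS _ hεδ
  obtain ⟨ξ₀, hξ₀⟩ := hε.1
  obtain ⟨ξ, _, hξε, hξF⟩ := fin_bound (fun ξ => (hG ξ).1) hε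
      ((X δ ∩ Iio ε) ∪ (X' δ ∩ Iio ε)) (hfX.union hfX') (by
        rintro x (h | h)
        · exact h.2
        · exact h.2) ξ₀ hξ₀
  have hFX : ∀ x ∈ hfX.toFinset, x ≤ ξ := by
    intro x hx
    exact (hξF x (Or.inl (hfX.mem_toFinset.1 hx))).le
  have hFX' : ∀ x ∈ hfX'.toFinset, x ≤ ξ := by
    intro x hx
    exact (hξF x (Or.inr (hfX'.mem_toFinset.1 hx))).le
  have hbd : ∀ ξ', ζ hfX.toFinset hfX'.toFinset < G (max ξ ξ') ∧
      B hfX.toFinset hfX'.toFinset ξ' < G (max ξ ξ') := by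
    intro ξ'
    have h1 := (hG (max ξ ξ')).2 ⟨(hfX.toFinset, hfX'.toFinset, ξ'),
      fun x hx => (hFX x hx).trans (le_max_left _ _),
      fun x hx => (hFX' x hx).trans (le_max_left _ _), mem_Iic.2 (le_max_right _ _)⟩
    exact ⟨(le_max_left _ _).trans_lt h1, (le_max_right _ _).trans_lt h1⟩
  have hζε : ζ hfX.toFinset hfX'.toFinset < ε := by
    have h1 := (hbd ξ).1
    rw [max_self] at h1
    exact h1.trans (hε.2 ξ hξε)
  refine hB hfX.toFinset hfX'.toFinset δ ⟨hδS, ?_, ?_⟩ ⟨hδ.1, ?_⟩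
  · intro x hx
    rw [hfX.mem_toFinset]
    exact ⟨fun h => ⟨h, hx.trans hζε⟩, fun h => h.1⟩
  · intro x hx
    rw [hfX'.mem_toFinset]
    exact ⟨fun h => ⟨h, hx.trans hζε⟩, fun h => h.1⟩
  · intro ξ' hξ'
    exact (hbd ξ').2.trans (hδ.2 _ (max_lt (hξε.trans hεδ) hξ'))

/-- reduction to the case needed for the forcing -/
theorem reduction {S : Set W} {X X' : W → Set W} (hX : Lad S X) (hX' : Lad S X')
    (hS : StatF S) : ∃ (S' : Set W) (Y Z : W → Set W), S' ⊆ S ∧ Lad S' Y ∧ Lad S' Z ∧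
      (∀ ζ, StatF {δ ∈ S' | (∀ x ∈ Y δ, ζ ≤ x) ∧ ∀ x ∈ Z δ, ζ ≤ x}) ∧
      (∀ η ∈ S', ∀ η' ∈ S', (Lx X η η' ↔ Lx Y η η') ∧ (Lx X' η η' ↔ Lx Z η η')) := by
  obtain ⟨A, A', hA⟩ := step1 hX hX' hS
  obtain ⟨γ, hγ⟩ := W_bdd ((A : Set W) ∪ A') ((A.countable_toSet).union (A'.countable_toSet))
  let S' : Set W := {δ ∈ S | γ < δ ∧ (∀ x < γ, (x ∈ X δ ↔ x ∈ A)) ∧ ∀ x < γ, (x ∈ X' δ ↔ x ∈ A')}
  have hlad : ∀ V : W → Set W, Lad S V → Lad S' (fun δ => V δ ∩ Ici γ) := by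
    intro V hV
    refine ⟨fun δ hδ x hx => hV.lt δ hδ.1 x hx.1, fun δ hδ ζ hζ => ?_, fun δ hδ ζ hζ => ?_,
      fun δ hδ => hV.ne δ hδ.1⟩
    · exact (hV.fin δ hδ.1 ζ hζ).subset (fun x hx => ⟨hx.1.1, hx.2⟩)
    · obtain ⟨x, hx, h1⟩ := hV.cof δ hδ.1 (max ζ γ) (max_lt hζ hδ.2.1)
      exact ⟨x, ⟨hx, (le_max_right _ _).trans h1⟩, (le_max_left _ _).trans h1⟩
  have hlx : ∀ (V : W → Set W) (C : Finset W), (∀ δ ∈ S', ∀ x < γ, (x ∈ V δ ↔ x ∈ C)) →
      ∀ η ∈ S', ∀ η' ∈ S', (Lx V η η' ↔ Lx (fun δ => V δ ∩ Ici γ) η η') := by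
    intro V C hV η hη η' hη'
    have hag : ∀ x < γ, (x ∈ V η ↔ x ∈ V η') := fun x hx =>
      (hV η hη x hx).trans (hV η' hη' x hx).symm
    constructor
    · rintro ⟨ξ, h1, h2, h3⟩
      have hξ : γ ≤ ξ := by
        by_contra hcon
        exact h2 ((hag ξ (not_le.1 hcon)).1 h1)
      refine ⟨ξ, ⟨h1, hξ⟩, fun h => h2 h.1, fun ζ hζ => ?_⟩
      exact and_congr_left fun _ => h3 ζ hζ
    · rintro ⟨ξ, h1, h2, h3⟩
      refine ⟨ξ, h1.1, fun h => h2 ⟨h, h1.2⟩, fun ζ hζ => ?_⟩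
      rcases lt_or_ge ζ γ with h4 | h4
      · exact hag ζ h4
      · exact ⟨fun h => ((h3 ζ hζ).1 ⟨h, h4⟩).1, fun h => ((h3 ζ hζ).2 ⟨h, h4⟩).1⟩
  refine ⟨S', fun δ => X δ ∩ Ici γ, fun δ => X' δ ∩ Ici γ, fun δ hδ => hδ.1, hlad X hX,
    hlad X' hX', ?_, ?_⟩
  · intro ζ
    refine ((hA (max ζ γ)).gt γ).mono ?_
    rintro δ ⟨⟨hδS, h1, h2⟩, hγδ⟩
    refine ⟨⟨hδS, hγδ, fun x hx => h1 x (hx.trans_le (le_max_right _ _)),
      fun x hx => h2 x (hx.trans_le (le_max_right _ _))⟩, ?_, ?_⟩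
    · rintro x ⟨hx, hγx⟩
      by_contra hcon
      have h3 := (h1 x ((not_le.1 hcon).trans_le (le_max_left _ _))).1 hx
      exact absurd (hγ x (Or.inl h3)) (not_lt.2 hγx)
    · rintro x ⟨hx, hγx⟩
      by_contra hcon
      have h3 := (h2 x ((not_le.1 hcon).trans_le (le_max_left _ _))).1 hx
      exact absurd (hγ x (Or.inr h3)) (not_lt.2 hγx)
  · intro η hη η' hη'
    exact ⟨hlx X A (fun δ hδ => hδ.2.2.1) η hη η' hη', hlx X' A' (fun δ hδ => hδ.2.2.2) η hη η' hη'⟩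

end Pool.Agent.R591.BT
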