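import Pool.Agent.R591.BT.Stat

/-!
# The notion of forcing
-/

set_option autoImplicit false

open Set Cardinal

namespace Pool.Agent.R591.BT

/-- `Y η` and `Y η'` agree below `γ` -/
def Ag (Y : W → Set W) (η η' γ : W) : Prop := ∀ ζ < γ, (ζ ∈ Y η ↔ ζ ∈ Y η')

/-- `Y η` meets the interval `[γ, γ')` -/
def Mt (Y : W → Set W) (η γ γ' : W) : Prop := ∃ ζ ∈ Y η, γ ≤ ζ ∧ ζ < γ'

/-- `Y η` comes before `Y η'` in the lexicographic order -/
def Lx (Y : W → Set W) (η η' : W) : Prop := ∃ ξ, ξ ∈ Y η ∧ ξ ∉ Y η' ∧ Ag Y η η' ξ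

/-- ladder system, as sets -/
structure Lad (S : Set W) (Y : W → Set W) : Prop where
  lt : ∀ δ ∈ S, ∀ x ∈ Y δ, x < δ
  fin : ∀ δ ∈ S, ∀ ζ < δ, (Y δ ∩ Iio ζ).Finite
  cof : ∀ δ ∈ S, ∀ ζ < δ, ∃ x ∈ Y δ, ζ ≤ x
  ne : ∀ δ ∈ S, ∃ ζ, ζ < δ

/-- the least element of `ω₁` -/
noncomputable def o : W := wellFounded_lt.min (Set.univ : Set W) univ_nonempty

theorem o_le (x : W) : o ≤ x := not_lt.1 (wellFounded_lt.not_lt_min (Set.univ : Set W) (mem_univ x))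

theorem Ag.symm {Y : W → Set W} {η η' γ : W} (h : Ag Y η η' γ) : Ag Y η' η γ :=
  fun ζ hζ => (h ζ hζ).symm

theorem ag_comm {Y : W → Set W} {η η' γ : W} : Ag Y η η' γ ↔ Ag Y η' η γ :=
  ⟨Ag.symm, Ag.symm⟩

theorem ag_self {Y : W → Set W} {η γ : W} : Ag Y η η γ := fun _ _ => Iff.rfl

theorem not_lx_self {Y : W → Set W} {η : W} : ¬ Lx Y η η := fun ⟨_, h, h', _⟩ => h' h

theorem Ag.mono {Y : W → Set W} {η η' γ γ' : W} (h : Ag Y η η' γ) (hle : γ' ≤ γ) :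
    Ag Y η η' γ' := fun ζ hζ => h ζ (hζ.trans_le hle)

theorem Ag.trans {Y : W → Set W} {η η' η'' γ : W} (h : Ag Y η η' γ) (h' : Ag Y η' η'' γ) :
    Ag Y η η'' γ := fun ζ hζ => (h ζ hζ).trans (h' ζ hζ)

variable {S : Set W} {Y Z : W → Set W}

variable (S Y Z) in
/-- conditions -/
@[ext]
structure Cd where
  s : Set W
  c : Set W
  t : W
  o_mem : o ∈ c
  t_mem : t ∈ c
  c_le : ∀ γ ∈ c, γ ≤ t
  s_c : ∀ η ∈ s, η ∈ c
  s_S : ∀ η ∈ s, η ∈ S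
  agree : ∀ η ∈ s, ∀ η' ∈ s, (Lx Y η η' ↔ Lx Z η η')
  lev : ∀ η ∈ s, ∀ η' ∈ s, ∀ γ ∈ c, γ ≤ η → γ ≤ η' → (Ag Y η η' γ ↔ Ag Z η η' γ)
  una : ∀ η ∈ s, ∀ γ ∈ c, ∀ γ' ∈ c, γ' ≤ η → (Mt Y η γ γ' ↔ Mt Z η γ γ')

instance : PartialOrder (Cd S Y Z) where
  le q p := p.t ≤ q.t ∧ (∀ η ≤ p.t, (η ∈ q.s ↔ η ∈ p.s)) ∧ (∀ η ≤ p.t, (η ∈ q.c ↔ η ∈ p.c))
  le_refl p := ⟨le_rfl, fun _ _ => Iff.rfl, fun _ _ => Iff.rfl⟩
  le_trans r q p h h' := ⟨h'.1.trans h.1,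
    fun η hη => (h.2.1 η (hη.trans h'.1)).trans (h'.2.1 η hη),
    fun η hη => (h.2.2 η (hη.trans h'.1)).trans (h'.2.2 η hη)⟩
  le_antisymm q p h h' := by
    have ht : q.t = p.t := le_antisymm h'.1 h.1
    apply Cd.ext
    · ext η
      constructor
      · intro hη
        have h1 : η ≤ q.t := q.c_le _ (q.s_c _ hη)
        exact (h.2.1 η (ht ▸ h1)).1 hη
      · intro hη
        have h1 : η ≤ p.t := p.c_le _ (p.s_c _ hη)
        exact (h.2.1 η h1).2 hη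
    · ext η
      constructor
      · intro hη
        have h1 : η ≤ q.t := q.c_le _ hη
        exact (h.2.2 η (ht ▸ h1)).1 hη
      · intro hη
        have h1 : η ≤ p.t := p.c_le _ hη
        exact (h.2.2 η h1).2 hη
    · exact ht

theorem le_def (q p : Cd S Y Z) : q ≤ p ↔
    p.t ≤ q.t ∧ (∀ η ≤ p.t, (η ∈ q.s ↔ η ∈ p.s)) ∧ (∀ η ≤ p.t, (η ∈ q.c ↔ η ∈ p.c)) := Iff.rfl

theorem s_sub {p q : Cd S Y Z} (h : q ≤ p) {η : W} (hη : η ∈ p.s) : η ∈ q.s :=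
  (h.2.1 η (p.c_le _ (p.s_c _ hη))).2 hη

theorem c_sub {p q : Cd S Y Z} (h : q ≤ p) {η : W} (hη : η ∈ p.c) : η ∈ q.c :=
  (h.2.2 η (p.c_le _ hη)).2 hη

instance : Nonempty (Cd S Y Z) :=
  ⟨{ s := ∅
     c := {o}
     t := o
     o_mem := rfl
     t_mem := rfl
     c_le := by rintro γ rfl; exact le_rfl
     s_c := by rintro η ⟨⟩
     s_S := by rintro η ⟨⟩
     agree := by rintro η ⟨⟩
     lev := by rintro η ⟨⟩
     una := by rintro η ⟨⟩ }⟩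

/-- `δ` can be added on top of `p` -/
structure Good (p : Cd S Y Z) (δ : W) : Prop where
  mem : δ ∈ S
  lt : p.t < δ
  g1 : ∀ η ∈ p.s, (Lx Y η δ ↔ Lx Z η δ) ∧ (Lx Y δ η ↔ Lx Z δ η)
  g2 : ∀ η ∈ p.s, ∀ γ ∈ p.c, γ ≤ η → (Ag Y η δ γ ↔ Ag Z η δ γ)
  g3 : ∀ γ ∈ p.c, ∀ γ' ∈ p.c, (Mt Y δ γ γ' ↔ Mt Z δ γ γ')

theorem lim_aux (p : ℕ → Cd S Y Z) (hp : ∀ n, p (n + 1) ≤ p n) : ∀ n k, p (n + k) ≤ p n := by
  intro n k
  induction k with
  | zero => exact le_rfl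
  | succ k ih => exact (hp (n + k)).trans ih

/-- lower bounds of sequences -/
theorem lim (hY : Lad S Y) (hZ : Lad S Z) (p : ℕ → Cd S Y Z) (hp : ∀ n, p (n + 1) ≤ p n) (δ : W)
    (A : Set W) (hA : ∀ x ∈ A, x = δ) (hlt : ∀ n, (p n).t < δ) (hg : δ ∈ A → ∀ n, Good (p n) δ) :
    ∃ q : Cd S Y Z, (∀ n, q ≤ p n) ∧ q.t = δ ∧ q.s = A ∪ ⋃ n, (p n).s ∧
      q.c = insert δ (⋃ n, (p n).c) := by
  have hle : ∀ n m, n ≤ m → p m ≤ p n := by
    intro n m h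
    obtain ⟨k, rfl⟩ := Nat.exists_eq_add_of_le h
    exact lim_aux p hp n k
  have htop : ∀ n, ∀ η ∈ (p n).s, η < δ := fun n η hη =>
    ((p n).c_le _ ((p n).s_c _ hη)).trans_lt (hlt n)
  have htop' : ∀ n, ∀ η ∈ (p n).c, η < δ := fun n η hη =>
    ((p n).c_le _ hη).trans_lt (hlt n)
  have hs : ∀ n m, ∀ η ∈ (p n).s, η ∈ (p (max n m)).s := fun n m η hη =>
    s_sub (hle n _ (le_max_left _ _)) hη
  have hs' : ∀ n m, ∀ η ∈ (p m).s, η ∈ (p (max n m)).s := fun n m η hη =>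
    s_sub (hle m _ (le_max_right _ _)) hη
  have hc : ∀ n m, ∀ η ∈ (p n).c, η ∈ (p (max n m)).c := fun n m η hη =>
    c_sub (hle n _ (le_max_left _ _)) hη
  have hc' : ∀ n m, ∀ η ∈ (p m).c, η ∈ (p (max n m)).c := fun n m η hη =>
    c_sub (hle m _ (le_max_right _ _)) hη
  refine ⟨{ s := A ∪ ⋃ n, (p n).s
            c := insert δ (⋃ n, (p n).c)
            t := δ
            o_mem := Or.inr (mem_iUnion.2 ⟨0, (p 0).o_mem⟩)
            t_mem := Or.inl rfl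
            c_le := ?_
            s_c := ?_
            s_S := ?_
            agree := ?_
            lev := ?_
            una := ?_ }, ?_, rfl, rfl, rfl⟩
  · rintro γ (rfl | hγ)
    · exact le_rfl
    · obtain ⟨n, hn⟩ := mem_iUnion.1 hγ
      exact (htop' n γ hn).le
  · rintro η (h | h)
    · exact Or.inl (hA _ h)
    · obtain ⟨n, hn⟩ := mem_iUnion.1 h
      exact Or.inr (mem_iUnion.2 ⟨n, (p n).s_c _ hn⟩)
  · rintro η (h | h)
    · have e := hA _ h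
      rw [e] at h ⊢
      exact (hg h 0).mem
    · obtain ⟨n, hn⟩ := mem_iUnion.1 h
      exact (p n).s_S _ hn
  · rintro η (h | h) η' (h' | h')
    · rw [hA _ h, hA _ h']
      exact iff_of_false not_lx_self not_lx_self
    · obtain ⟨n, hn⟩ := mem_iUnion.1 h'
      have e := hA _ h
      rw [e] at h ⊢
      exact ((hg h n).g1 _ hn).2
    · obtain ⟨n, hn⟩ := mem_iUnion.1 h
      have e := hA _ h'
      rw [e] at h' ⊢
      exact ((hg h' n).g1 _ hn).1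
    · obtain ⟨n, hn⟩ := mem_iUnion.1 h
      obtain ⟨m, hm⟩ := mem_iUnion.1 h'
      exact (p (max n m)).agree _ (hs n m _ hn) _ (hs' n m _ hm)
  · rintro η (h | h) η' (h' | h') γ hγ hγη hγη'
    · rw [hA _ h, hA _ h']
      exact iff_of_true ag_self ag_self
    · obtain ⟨n, hn⟩ := mem_iUnion.1 h'
      rcases hγ with rfl | hγ
      · exact absurd (htop n _ hn) (not_lt.2 hγη')
      · obtain ⟨m, hm⟩ := mem_iUnion.1 hγ
        have e := hA _ h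
        rw [e] at h ⊢
        have h1 := (hg h (max n m)).g2 _ (hs n m _ hn) _ (hc' n m _ hm) hγη'
        rw [ag_comm (Y := Y), ag_comm (Y := Z)]
        exact h1
    · obtain ⟨n, hn⟩ := mem_iUnion.1 h
      rcases hγ with rfl | hγ
      · exact absurd (htop n _ hn) (not_lt.2 hγη)
      · obtain ⟨m, hm⟩ := mem_iUnion.1 hγ
        have e := hA _ h'
        rw [e] at h' ⊢
        exact (hg h' (max n m)).g2 _ (hs n m _ hn) _ (hc' n m _ hm) hγη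
    · obtain ⟨n, hn⟩ := mem_iUnion.1 h
      obtain ⟨m, hm⟩ := mem_iUnion.1 h'
      rcases hγ with rfl | hγ
      · exact absurd (htop n _ hn) (not_lt.2 hγη)
      · obtain ⟨k, hk⟩ := mem_iUnion.1 hγ
        exact (p (max (max n m) k)).lev _ (hs _ k _ (hs n m _ hn)) _ (hs _ k _ (hs' n m _ hm)) _
          (hc' _ k _ hk) hγη hγη'
  · rintro η (h | h) γ hγ γ' hγ' hγη
    · have e := hA _ h
      rw [e] at h ⊢
      have hδS := (hg h 0).mem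
      rcases hγ with rfl | hγ
      · refine iff_of_false ?_ ?_
        · rintro ⟨ζ, hζ, h1, _⟩
          exact absurd (hY.lt _ hδS _ hζ) (not_lt.2 h1)
        · rintro ⟨ζ, hζ, h1, _⟩
          exact absurd (hZ.lt _ hδS _ hζ) (not_lt.2 h1)
      · obtain ⟨n, hn⟩ := mem_iUnion.1 hγ
        rcases hγ' with rfl | hγ'
        · refine iff_of_true ?_ ?_
          · obtain ⟨ζ, hζ, h1⟩ := hY.cof _ hδS γ (htop' n _ hn)
            exact ⟨ζ, hζ, h1, hY.lt _ hδS _ hζ⟩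
          · obtain ⟨ζ, hζ, h1⟩ := hZ.cof _ hδS γ (htop' n _ hn)
            exact ⟨ζ, hζ, h1, hZ.lt _ hδS _ hζ⟩
        · obtain ⟨m, hm⟩ := mem_iUnion.1 hγ'
          exact (hg h (max n m)).g3 _ (hc n m _ hn) _ (hc' n m _ hm)
    · obtain ⟨n, hn⟩ := mem_iUnion.1 h
      have hηS := (p n).s_S _ hn
      rcases hγ' with rfl | hγ'
      · exact absurd (htop n _ hn) (not_lt.2 hγη)
      · obtain ⟨m, hm⟩ := mem_iUnion.1 hγ'
        rcases hγ with rfl | hγ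
        · refine iff_of_false ?_ ?_
          · rintro ⟨ζ, hζ, h1, _⟩
            exact absurd (hY.lt _ hηS _ hζ) (not_lt.2 ((htop n _ hn).le.trans h1))
          · rintro ⟨ζ, hζ, h1, _⟩
            exact absurd (hZ.lt _ hηS _ hζ) (not_lt.2 ((htop n _ hn).le.trans h1))
        · obtain ⟨k, hk⟩ := mem_iUnion.1 hγ
          exact (p (max (max n m) k)).una _ (hs _ k _ (hs n m _ hn)) _ (hc' _ k _ hk) _
            (hc _ k _ (hc' n m _ hm)) hγη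
  · intro n
    refine ⟨(hlt n).le, ?_, ?_⟩
    · intro η hη
      constructor
      · rintro (h | h)
        · rw [hA _ h] at hη
          exact absurd (hlt n) (not_lt.2 hη)
        · obtain ⟨m, hm⟩ := mem_iUnion.1 h
          exact ((hle n _ (le_max_left n m)).2.1 η hη).1 (hs' n m _ hm)
      · exact fun h => Or.inr (mem_iUnion.2 ⟨n, h⟩)
    · intro η hη
      constructor
      · rintro (h | h)
        · rw [h] at hη
          exact absurd (hlt n) (not_lt.2 hη)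
        · obtain ⟨m, hm⟩ := mem_iUnion.1 h
          exact ((hle n _ (le_max_left n m)).2.2 η hη).1 (hc' n m _ hm)
      · exact fun h => Or.inr (mem_iUnion.2 ⟨n, h⟩)

theorem sigmaClosed (hY : Lad S Y) (hZ : Lad S Z) : SigmaClosed (Cd S Y Z) := by
  intro p hp
  obtain ⟨δ, hδ⟩ := W_bdd (range fun n => (p n).t) (countable_range _)
  obtain ⟨q, hq, _⟩ := lim hY hZ p hp δ ∅ (fun x hx => absurd hx (notMem_empty _))
    (fun n => hδ _ ⟨n, rfl⟩) (fun h => absurd h (notMem_empty _))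
  exact ⟨q, hq⟩

theorem good_of_far (hY : Lad S Y) (hZ : Lad S Z) {p : Cd S Y Z} {δ : W} (hδ : δ ∈ S)
    (h1 : ∀ x ∈ Y δ, p.t < x) (h2 : ∀ x ∈ Z δ, p.t < x) : Good p δ := by
  have key : ∀ (X : W → Set W), Lad S X → (∀ x ∈ X δ, p.t < x) →
      (∀ η ∈ p.s, Lx X η δ) ∧ (∀ η ∈ p.s, ¬ Lx X δ η) ∧
      (∀ η ∈ p.s, ∀ γ ≤ η, (Ag X η δ γ ↔ ¬ Mt X η o γ)) ∧
      (∀ γ' ∈ p.c, ∀ γ, ¬ Mt X δ γ γ') := by
    intro X hX h
    have hmin : ∀ η ∈ p.s, ∃ x ∈ X η, ∀ y ∈ X η, x ≤ y := by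
      intro η hη
      have hηS := p.s_S _ hη
      obtain ⟨ζ, hζ⟩ := hX.ne _ hηS
      obtain ⟨x, hx, _⟩ := hX.cof _ hηS ζ hζ
      exact ⟨wellFounded_lt.min (X η) ⟨x, hx⟩, wellFounded_lt.min_mem _ _,
        fun y hy => not_lt.1 (wellFounded_lt.not_lt_min _ hy)⟩
    have hle : ∀ η ∈ p.s, ∀ x ∈ X η, x ≤ p.t := fun η hη x hx =>
      (hX.lt _ (p.s_S _ hη) _ hx).le.trans (p.c_le _ (p.s_c _ hη))
    refine ⟨?_, ?_, ?_, ?_⟩
    · intro η hη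
      obtain ⟨x, hx, hmx⟩ := hmin η hη
      refine ⟨x, hx, fun hx' => absurd (h x hx') (not_lt.2 (hle η hη x hx)), ?_⟩
      intro ζ hζ
      refine iff_of_false (fun h' => absurd hζ (not_lt.2 (hmx _ h'))) (fun h' => ?_)
      exact absurd (hζ.trans_le (hle η hη x hx)) (not_lt.2 (h _ h').le)
    · rintro η hη ⟨ξ, hξ, _, hag⟩
      obtain ⟨x, hx, _⟩ := hmin η hη
      have h3 : x < ξ := (hle η hη x hx).trans_lt (h ξ hξ)
      exact absurd (h x ((hag x h3).2 hx)) (not_lt.2 (hle η hη x hx))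
    · intro η hη γ hγ
      constructor
      · rintro hag ⟨ζ, hζ, _, h4⟩
        exact absurd (h ζ ((hag ζ h4).1 hζ)) (not_lt.2 (hle η hη ζ hζ))
      · intro hm ζ hζ
        refine iff_of_false (fun h' => hm ⟨ζ, h', o_le _, hζ⟩) (fun h' => ?_)
        exact absurd ((hζ.trans_le hγ).trans_le (p.c_le _ (p.s_c _ hη))) (not_lt.2 (h _ h').le)
    · rintro γ' hγ' γ ⟨ζ, hζ, _, h4⟩
      exact absurd (h4.trans_le (p.c_le _ hγ')) (not_lt.2 (h _ hζ).le)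
  obtain ⟨a1, a2, a3, a4⟩ := key Y hY h1
  obtain ⟨b1, b2, b3, b4⟩ := key Z hZ h2
  refine ⟨hδ, ?_, ?_, ?_, ?_⟩
  · obtain ⟨ζ, hζ⟩ := hY.ne _ hδ
    obtain ⟨x, hx, _⟩ := hY.cof _ hδ ζ hζ
    exact (h1 x hx).trans (hY.lt _ hδ _ hx)
  · exact fun η hη => ⟨iff_of_true (a1 η hη) (b1 η hη), iff_of_false (a2 η hη) (b2 η hη)⟩
  · intro η hη γ hγ hle
    rw [a3 η hη γ hle, b3 η hη γ hle, p.una η hη o p.o_mem γ hγ hle]
  · exact fun γ _ γ' hγ' => iff_of_false (a4 γ' hγ' γ) (b4 γ' hγ' γ)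

/-- adding a level `γ` and a point `δ` -/
theorem mid (hY : Lad S Y) (hZ : Lad S Z) {p : Cd S Y Z} {δ γ : W} (hg : Good p δ)
    (h1 : p.t < γ) (h2 : γ < δ) (hy : Mt Y δ p.t γ) (hz : Mt Z δ p.t γ) :
    ∃ r : Cd S Y Z, r ≤ p ∧ r.t = δ ∧ r.s = insert δ p.s ∧ r.c = insert δ (insert γ p.c) := by
  obtain ⟨p', hp', ht', hs', hc'⟩ := lim hY hZ (fun _ => p) (fun _ => le_rfl) γ ∅
    (fun x hx => absurd hx (notMem_empty _)) (fun _ => h1) (fun h => absurd h (notMem_empty _))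
  rw [iUnion_const, empty_union] at hs'
  rw [iUnion_const] at hc'
  have hg' : Good p' δ := by
    refine ⟨hg.mem, by rw [ht']; exact h2, ?_, ?_, ?_⟩
    · rw [hs']; exact hg.g1
    · rw [hs', hc']
      intro η hη γ' hγ' hle
      rcases hγ' with rfl | hγ'
      · exact absurd ((p.c_le _ (p.s_c _ hη)).trans_lt h1) (not_lt.2 hle)
      · exact hg.g2 η hη γ' hγ' hle
    · rw [hc']
      rintro γ₁ hγ₁ γ₂ (rfl | hγ₂)
      · rcases hγ₁ with rfl | hγ₁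
        · refine iff_of_false ?_ ?_
          · rintro ⟨ζ, _, h3, h4⟩; exact absurd h4 (not_lt.2 h3)
          · rintro ⟨ζ, _, h3, h4⟩; exact absurd h4 (not_lt.2 h3)
        · refine iff_of_true ?_ ?_
          · obtain ⟨ζ, hζ, h3, h4⟩ := hy
            exact ⟨ζ, hζ, (p.c_le _ hγ₁).trans h3, h4⟩
          · obtain ⟨ζ, hζ, h3, h4⟩ := hz
            exact ⟨ζ, hζ, (p.c_le _ hγ₁).trans h3, h4⟩
      · rcases hγ₁ with rfl | hγ₁
        · have h5 : γ₂ < γ₁ := (p.c_le _ hγ₂).trans_lt h1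
          refine iff_of_false ?_ ?_
          · rintro ⟨ζ, _, h3, h4⟩; exact absurd (h4.trans h5) (not_lt.2 h3)
          · rintro ⟨ζ, _, h3, h4⟩; exact absurd (h4.trans h5) (not_lt.2 h3)
        · exact hg.g3 γ₁ hγ₁ γ₂ hγ₂
  obtain ⟨r, hr, ht, hs, hc⟩ := lim hY hZ (fun _ => p') (fun _ => le_rfl) δ {δ}
    (fun x hx => hx) (fun _ => hg'.lt) (fun _ _ => hg')
  rw [iUnion_const] at hs hc
  refine ⟨r, (hr 0).trans (hp' 0), ht, ?_, ?_⟩
  · rw [hs, hs']; rfl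
  · rw [hc, hc']

end Pool.Agent.R591.BT
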