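import Pool.Agent.R591.BT.Defs

/-!
# Stationary sets
-/

set_option autoImplicit false

open Set Cardinal

namespace Pool.Agent.R591.BT

theorem W_Iio (x : W) : (Iio x).Countable := by
  rw [← Cardinal.le_aleph0_iff_set_countable]
  have h : #(Iio x) < #W := Cardinal.mk_Iio_lt x (by
    rw [Cardinal.mk_ord_toType]
    exact (Ordinal.type_toType _).symm)
  have h2 : #W = Order.succ ℵ₀ := by rw [Cardinal.mk_ord_toType, succ_aleph0]
  exact Order.lt_succ_iff.1 (h.trans_eq h2)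

theorem W_Iic (x : W) : (Iic x).Countable := by
  have : (Iic x : Set W) = insert x (Iio x) := by
    ext y; simp [le_iff_lt_or_eq, or_comm]
  rw [this]
  exact (W_Iio x).insert x

theorem W_unc : ¬ (Set.univ : Set W).Countable := by
  intro h
  have h1 : #(Set.univ : Set W) ≤ ℵ₀ := h.le_aleph0
  rw [mk_univ, Cardinal.mk_ord_toType] at h1
  exact absurd aleph0_lt_aleph_one (not_lt.2 h1)

theorem W_bdd (s : Set W) (hs : s.Countable) : ∃ δ : W, ∀ x ∈ s, x < δ := by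
  by_contra hcon
  push Not at hcon
  apply W_unc
  have : (Set.univ : Set W) ⊆ ⋃ x ∈ s, Iic x := by
    intro δ _
    obtain ⟨x, hx, h⟩ := hcon δ
    exact mem_iUnion₂.2 ⟨x, hx, h⟩
  exact (hs.biUnion (fun x _ => W_Iic x)).mono this

instance : Nonempty W := by
  by_contra hne
  rw [not_nonempty_iff] at hne
  exact W_unc (Set.to_countable _)

/-- `δ` is closed under `B` -/
def Cl (B : W → W) (δ : W) : Prop := (∃ ξ, ξ < δ) ∧ ∀ ξ < δ, B ξ < δ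

def StatF (T : Set W) : Prop := ∀ B : W → W, ∃ δ ∈ T, Cl B δ

/-- a strict upper bound for a sequence of sequences of points -/
theorem bound_fun {ι : W → Type*} [∀ ξ, Countable (ι ξ)] (f : ∀ ξ, ι ξ → W) :
    ∃ B : W → W, ∀ ξ, ξ < B ξ ∧ ∀ i, f ξ i < B ξ := by
  have h : ∀ ξ, ∃ δ, ξ < δ ∧ ∀ i, f ξ i < δ := by
    intro ξ
    obtain ⟨δ, hδ⟩ := W_bdd (insert ξ (range (f ξ))) ((countable_range _).insert _)
    exact ⟨δ, hδ _ (mem_insert _ _), fun i => hδ _ (mem_insert_of_mem _ ⟨i, rfl⟩)⟩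
  choose B hB using h
  exact ⟨B, hB⟩

/-- the least strict upper bound of a sequence -/
theorem exists_sup (x : ℕ → W) : ∃ δ, (∀ n, x n < δ) ∧ ∀ ξ < δ, ∃ n, ξ ≤ x n := by
  obtain ⟨δ₀, hδ₀⟩ := W_bdd (range x) (countable_range _)
  have hne : {δ | ∀ n, x n < δ}.Nonempty := ⟨δ₀, fun n => hδ₀ _ ⟨n, rfl⟩⟩
  refine ⟨wellFounded_lt.min _ hne, wellFounded_lt.min_mem _ hne, ?_⟩
  intro ξ hξ
  by_contra hcon
  push Not at hcon
  exact wellFounded_lt.not_lt_min _ (show ξ ∈ {δ | ∀ n, x n < δ} from hcon) hξ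

theorem exists_cl (B : W → W) (ξ₀ : W) : ∃ δ, ξ₀ < δ ∧ Cl B δ := by
  have hc : ∀ ξ : W, Countable (Iic ξ) := fun ξ => (W_Iic ξ).to_subtype
  obtain ⟨g, hg⟩ := bound_fun (ι := fun ξ => Iic ξ) (fun ξ ξ' => B ξ')
  let x : ℕ → W := fun n => g^[n] ξ₀
  have hx : ∀ n, x (n + 1) = g (x n) := fun n => Function.iterate_succ_apply' g n ξ₀
  obtain ⟨δ, hδ, hδ2⟩ := exists_sup x
  refine ⟨δ, hδ 0, ⟨ξ₀, hδ 0⟩, ?_⟩
  intro ξ hξ
  obtain ⟨n, hn⟩ := hδ2 ξ hξ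
  refine lt_trans ?_ (hδ (n + 1))
  rw [hx]
  exact (hg (x n)).2 ⟨ξ, hn⟩

theorem StatF.mono {T T' : Set W} (h : StatF T) (hT : T ⊆ T') : StatF T' := by
  intro B
  obtain ⟨δ, hδ, h2⟩ := h B
  exact ⟨δ, hT hδ, h2⟩

theorem StatF.cl {T : Set W} (h : StatF T) (B : W → W) : StatF {δ ∈ T | Cl B δ} := by
  intro B'
  obtain ⟨δ, hδ, h1, h2⟩ := h (fun ξ => max (B ξ) (B' ξ))
  exact ⟨δ, ⟨hδ, h1, fun ξ hξ => (le_max_left _ _).trans_lt (h2 ξ hξ)⟩, h1,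
    fun ξ hξ => (le_max_right _ _).trans_lt (h2 ξ hξ)⟩

theorem StatF.gt {T : Set W} (h : StatF T) (ζ : W) : StatF {δ ∈ T | ζ < δ} := by
  refine (h.cl (fun _ => ζ)).mono ?_
  rintro δ ⟨hδ, ⟨ξ, hξ⟩, h2⟩
  exact ⟨hδ, h2 ξ hξ⟩

theorem StatF.nonempty {T : Set W} (h : StatF T) : T.Nonempty := by
  obtain ⟨δ, hδ, _⟩ := h id
  exact ⟨δ, hδ⟩

/-- pressing down -/
theorem StatF.fodor {T : Set W} (h : StatF T) (f : W → W) (hf : ∀ α ∈ T, f α < α) :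
    ∃ a, StatF {α ∈ T | f α = a} := by
  by_contra hcon
  simp only [StatF, not_exists, not_forall, not_and] at hcon
  choose B hB using hcon
  have hc : ∀ ξ : W, Countable (Iic ξ × Iic ξ) := by
    intro ξ
    have := (W_Iic ξ).to_subtype
    infer_instance
  obtain ⟨G, hG⟩ := bound_fun (ι := fun ξ => Iic ξ × Iic ξ) (fun ξ z => B z.1.1 z.2.1)
  obtain ⟨δ, hδ, h1, h2⟩ := h G
  refine hB (f δ) δ ⟨hδ, rfl⟩ ⟨h1, fun ξ hξ => ?_⟩
  have h3 := h2 (max (f δ) ξ) (max_lt (hf δ hδ) hξ)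
  exact ((hG (max (f δ) ξ)).2 (⟨f δ, mem_Iic.2 (le_max_left _ _)⟩, ⟨ξ, mem_Iic.2 (le_max_right _ _)⟩)).trans h3

theorem StatF.iUnion {T : ℕ → Set W} (h : StatF (⋃ n, T n)) : ∃ n, StatF (T n) := by
  by_contra hcon
  simp only [StatF, not_exists, not_forall, not_and] at hcon
  choose B hB using hcon
  obtain ⟨G, hG⟩ := bound_fun (ι := fun _ => ℕ) (fun ξ n => B n ξ)
  obtain ⟨δ, hδ, h1, h2⟩ := h G
  obtain ⟨n, hn⟩ := mem_iUnion.1 hδ
  exact hB n δ hn ⟨h1, fun ξ hξ => ((hG ξ).2 n).trans (h2 ξ hξ)⟩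

theorem StatF.union {T T' : Set W} (h : StatF (T ∪ T')) : StatF T ∨ StatF T' := by
  have h1 : StatF (⋃ n : ℕ, if n = 0 then T else T') := by
    refine h.mono ?_
    rintro x (hx | hx)
    · exact mem_iUnion.2 ⟨0, by simpa using hx⟩
    · exact mem_iUnion.2 ⟨1, by simpa using hx⟩
  obtain ⟨n, hn⟩ := h1.iUnion
  by_cases h0 : n = 0
  · rw [if_pos h0] at hn; exact Or.inl hn
  · rw [if_neg h0] at hn; exact Or.inr hn

theorem isClub_cl (B : W → W) : IsClub {δ | Cl B δ} := by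
  refine ⟨fun ξ => ?_, ?_⟩
  · obtain ⟨δ, h1, h2⟩ := exists_cl B ξ
    exact ⟨δ, h2, h1⟩
  · intro γ h1 h2
    refine ⟨h1, fun ξ hξ => ?_⟩
    obtain ⟨η, hη, h3, h4⟩ := h2 ξ hξ
    exact (hη.2 ξ h3).trans h4

theorem stationary_iff (T : Set W) : Stationary T ↔ StatF T := by
  constructor
  · intro h B
    obtain ⟨δ, h1, h2⟩ := h _ (isClub_cl B)
    exact ⟨δ, h2, h1⟩
  · intro h C hC
    choose B hB using hC.1
    obtain ⟨δ, hδ, h1, h2⟩ := h B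
    exact ⟨δ, hC.2 δ h1 (fun ξ hξ => ⟨B ξ, (hB ξ).1, (hB ξ).2, h2 ξ hξ⟩), hδ⟩

end Pool.Agent.R591.BT
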